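import Pool.Agent.H95.FH.Defs
import Pool.Agent.H54.FG.Pair

/-! Parts PAR and STAR2 of crew FH. -/

open MvPolynomial

namespace H32.FH

open H95.FG H95.FH

theorem first {n m : ℕ} {p : Fin m → MvPolynomial (Fin n) ℂ}
    {A : MvPolynomial (Fin n ⊕ Fin n) ℂ} (hS : Sys n m p A) {z Y : Fin n → ℂ}
    (hz : ∑ k, z k * Y k = 0) (l : Fin n) :
    ∑ j, eval z (pderiv l (p j)) * eval Y (cj (p j)) = Y l * AA A z Y := by
  have h := congrArg (pderiv (Sum.inl l : Fin n ⊕ Fin n)) hS.2
  rw [map_sum, Derivation.leibniz, H54.FG.pderiv_inl_Q] at h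
  simp only [Derivation.leibniz, H54.FG.pderiv_inl_rename_inr, smul_eq_mul, mul_zero, zero_add,
    pderiv_rename Sum.inl_injective] at h
  have h2 := congrArg (eval (Sum.elim z Y)) h
  simp only [map_sum, map_mul, map_add, eval_rename, eval_X, Sum.elim_inl, Sum.elim_inr,
    Sum.elim_comp_inl, Sum.elim_comp_inr, hz, zero_mul, zero_add] at h2
  rw [Finset.sum_congr rfl (fun j _ => mul_comm _ _), h2, mul_comm]
  rfl

theorem second {n m : ℕ} {p : Fin m → MvPolynomial (Fin n) ℂ}
    {A : MvPolynomial (Fin n ⊕ Fin n) ℂ} (hS : Sys n m p A) {z Y : Fin n → ℂ}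
    (hz : ∑ k, z k * Y k = 0) (k l : Fin n) :
    ∑ j, eval z (pderiv l (p j)) * eval Y (pderiv k (cj (p j))) =
      (if k = l then AA A z Y else 0) + z k * eval (Sum.elim z Y) (pderiv (Sum.inl l) A) +
        Y l * eval (Sum.elim z Y) (pderiv (Sum.inr k) A) := by
  have h1 : ∀ k : Fin n,
      ∑ j, rename Sum.inl (p j) * rename Sum.inr (pderiv k (cj (p j))) =
      X (Sum.inl k) * A +
        (∑ k : Fin n, X (Sum.inl k) * X (Sum.inr k)) * pderiv (Sum.inr k) A := by
    intro k
    have h := congrArg (pderiv (Sum.inr k : Fin n ⊕ Fin n)) hS.2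
    rw [map_sum, Derivation.leibniz, H54.FG.pderiv_inr_Q] at h
    simp only [Derivation.leibniz, H54.FG.pderiv_inr_rename_inl, smul_eq_mul, mul_zero, add_zero,
      pderiv_rename Sum.inr_injective] at h
    rw [h]; ring
  have h2 : ∑ j, rename Sum.inl (pderiv l (p j)) * rename Sum.inr (pderiv k (cj (p j))) =
      (if k = l then A else 0) + X (Sum.inl k) * pderiv (Sum.inl l) A +
        X (Sum.inr l) * pderiv (Sum.inr k) A +
        (∑ k : Fin n, X (Sum.inl k) * X (Sum.inr k)) *
          pderiv (Sum.inl l) (pderiv (Sum.inr k) A) := by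
    have h := congrArg (pderiv (Sum.inl l : Fin n ⊕ Fin n)) (h1 k)
    rw [map_sum, map_add, Derivation.leibniz, Derivation.leibniz, H54.FG.pderiv_inl_Q] at h
    simp only [Derivation.leibniz, H54.FG.pderiv_inl_rename_inr, smul_eq_mul, mul_zero, zero_add,
      pderiv_rename Sum.inl_injective] at h
    have h3 : ∑ j, rename Sum.inl (pderiv l (p j)) * rename Sum.inr (pderiv k (cj (p j))) =
        ∑ j, rename Sum.inr (pderiv k (cj (p j))) *
          (rename (Sum.inl : Fin n → Fin n ⊕ Fin n)) (pderiv l (p j)) :=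
      Finset.sum_congr rfl (fun j _ => mul_comm _ _)
    rw [h3, h, pderiv_X]
    by_cases hkl : k = l
    · subst hkl; simp; ring
    · have : (Sum.inl l : Fin n ⊕ Fin n) ≠ Sum.inl k := fun e => hkl (Sum.inl_injective e).symm
      simp [Pi.single_apply, this, hkl]; ring
  have h := congrArg (eval (Sum.elim z Y)) h2
  simp only [map_sum, map_mul, map_add, eval_rename, eval_X, Sum.elim_inl, Sum.elim_inr,
    Sum.elim_comp_inl, Sum.elim_comp_inr, hz, zero_mul, add_zero] at h
  rw [h]
  by_cases hkl : k = l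
  · simp [hkl, AA]
  · simp [hkl]

theorem lin {m : ℕ} (hm : m ≤ 4) (M : Matrix (Fin 3) (Fin m) ℂ)
    (hM : ∀ v : Fin 3 → ℂ, Matrix.vecMul v M = 0 → v = 0) (x y : Fin m → ℂ)
    (hx : M.mulVec x = 0) (hy : M.mulVec y = 0) : ¬ LinearIndependent ℂ ![x, y] := by
  intro hli
  have hinj : Function.Injective (fun v => Matrix.vecMul v M) := by
    intro v w hvw
    have : Matrix.vecMul (v - w) M = 0 := by
      rw [Matrix.sub_vecMul]; exact sub_eq_zero.2 hvw
    exact sub_eq_zero.1 (hM _ this)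
  have hrows := Matrix.vecMul_injective_iff.1 hinj
  have hrank : M.rank = 3 := by
    rw [LinearIndependent.rank_matrix hrows, Fintype.card_fin]
  have hsum := LinearMap.finrank_range_add_finrank_ker M.mulVecLin
  rw [Module.finrank_fin_fun] at hsum
  have hr : Module.finrank ℂ (LinearMap.range M.mulVecLin) = 3 := hrank
  have hk : Module.finrank ℂ (LinearMap.ker M.mulVecLin) ≤ 1 := by omega
  let K := LinearMap.ker M.mulVecLin
  let w : Fin 2 → K := ![⟨x, by simp [K, hx]⟩, ⟨y, by simp [K, hy]⟩]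
  have hw : K.subtype ∘ w = ![x, y] := by
    funext i
    fin_cases i <;> rfl
  have hli2 : LinearIndependent ℂ w := by
    refine LinearIndependent.of_comp K.subtype ?_
    rw [hw]; exact hli
  have h2 := hli2.fintype_card_le_finrank
  rw [Fintype.card_fin] at h2
  have : Module.finrank ℂ K ≤ 1 := hk
  omega

theorem t_PAR : S_PAR := by
  intro m d p A hc z hinj
  set M : Matrix (Fin 3) (Fin m) ℂ := Matrix.of (fun l j => eval z (pderiv l (p j))) with hMdef
  have hM : ∀ v : Fin 3 → ℂ, Matrix.vecMul v M = 0 → v = 0 := by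
    intro v hv
    apply hinj v
    funext j
    have := congrFun hv j
    simpa [dp, Matrix.vecMul, dotProduct, hMdef] using this
  have hroot : ∀ Y, Root A z Y → M.mulVec (ev (cp p) Y) = 0 := by
    intro Y hY
    funext l
    have h1 := first hc.sys (z := z) (Y := Y) hY.2.1 l
    rw [hY.2.2, mul_zero] at h1
    simpa [Matrix.mulVec, dotProduct, hMdef, ev, cp] using h1
  refine ⟨fun Y Y' hY hY' => lin hc.hm M hM _ _ (hroot Y hY) (hroot Y' hY'), ?_⟩
  intro Y U hY hU hd
  refine lin hc.hm M hM _ _ (hroot Y hY) ?_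
  funext l
  have h2 : ∀ k, ∑ j, eval z (pderiv l (p j)) * eval Y (pderiv k (cj (p j))) = _ :=
    fun k => second hc.sys (z := z) (Y := Y) hY.2.1 k l
  have h3 : (M.mulVec (dp (cp p) U Y)) l =
      ∑ k, U k * ∑ j, eval z (pderiv l (p j)) * eval Y (pderiv k (cj (p j))) := by
    simp only [Matrix.mulVec, dotProduct, hMdef, Matrix.of_apply, dp, cp, Finset.mul_sum]
    rw [Finset.sum_comm]
    refine Finset.sum_congr rfl fun k _ => Finset.sum_congr rfl fun j _ => by ring
  rw [h3]
  have hAz : AA A z Y = 0 := hY.2.2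
  have h4 : ∀ k, U k * ∑ j, eval z (pderiv l (p j)) * eval Y (pderiv k (cj (p j))) =
      (z k * U k) * eval (Sum.elim z Y) (pderiv (Sum.inl l) A) +
        Y l * (U k * eval (Sum.elim z Y) (pderiv (Sum.inr k) A)) := by
    intro k
    rw [h2 k, hAz]
    simp only [ite_self, zero_add]
    ring
  rw [Finset.sum_congr rfl (fun k _ => h4 k), Finset.sum_add_distrib, ← Finset.sum_mul,
    ← Finset.mul_sum]
  have h5 : ∑ k, z k * U k = 0 := hU
  have h6 : ∑ k, U k * eval (Sum.elim z Y) (pderiv (Sum.inr k) A) = 0 := hd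
  rw [h5, h6]
  simp

theorem t_STAR2 (hSWAP : S_SWAP) (hBAS : S_BAS) : S_STAR2 := by
  intro m p A hc M1 M2 c hA hmap z Y
  obtain ⟨-, -, -, -, -, -, hcv⟩ := hSWAP m 2 p A hc
  obtain ⟨hK, -⟩ := hBAS m 2 p A hc
  set w : Fin 3 → ℂ := cv (M1.mulVec (cv z)) with hw
  have hcc : ∀ x : Fin 3 → ℂ, cv (cv x) = x := fun x => by
    funext k; simp [cv]
  have hpw : ∀ j, ev p w j = (starRingEnd ℂ) c * ev p z j := by
    intro j
    have h1 := hcv w j
    rw [hw, hcc, hmap] at h1
    have h2 := hcv z j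
    rw [Pi.smul_apply, h2, smul_eq_mul] at h1
    have h3 := congrArg (starRingEnd ℂ) h1
    rw [map_mul, Complex.conj_conj, Complex.conj_conj] at h3
    exact h3.symm
  have h4 := hK w Y
  have h5 := hK z Y
  have h6 : ∑ j, ev p w j * ev (cp p) Y j = (starRingEnd ℂ) c * ∑ j, ev p z j * ev (cp p) Y j := by
    rw [Finset.mul_sum]
    refine Finset.sum_congr rfl fun j _ => ?_
    rw [hpw j]; ring
  rw [h4, h5, hA, hA] at h6
  have e0 : dt w Y = bl M1.conjTranspose z Y := by
    simp only [dt, bl, hw, cv, Matrix.mulVec, dotProduct, Fin.sum_univ_three,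
      Matrix.conjTranspose_apply, map_add, map_mul, Complex.conj_conj, RCLike.star_def]
    ring
  have e1 : ∀ M : Matrix (Fin 3) (Fin 3) ℂ, bl M w Y = bl (M1.conjTranspose * M) z Y := by
    intro M
    simp only [bl, hw, cv, Matrix.mulVec, dotProduct, Fin.sum_univ_three, Matrix.mul_apply,
      Matrix.conjTranspose_apply, map_add, map_mul, Complex.conj_conj, RCLike.star_def]
    ring
  have e2 : bl 1 z Y = dt z Y := by
    simp [bl, dt, Matrix.one_apply, Fin.sum_univ_three]
  rw [e0, e1, e1] at h6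
  rw [e2, mul_assoc, h6]
  ring

end H32.FH
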