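import Pool.Agent.H95.FH.Defs
import Pool.Agent.H91.FG.Nulls

/-! Part QF of crew FH. -/

open MvPolynomial

namespace H32.FH

open H95.FG H95.FH

/-- a polynomial whose values are homogeneous of degree `n` is homogeneous of degree `n` -/
theorem hom_of_eval {N : ℕ} {φ : MvPolynomial (Fin N) ℂ} {n : ℕ}
    (h : ∀ (c : ℂ) (z : Fin N → ℂ), eval (c • z) φ = c ^ n * eval z φ) : φ.IsHomogeneous n := by
  have key : ∀ z : Fin N → ℂ, eval z (homogeneousComponent n φ) = eval z φ := by
    intro z
    set D := φ.totalDegree with hD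
    let g : Polynomial ℂ := ∑ i ∈ Finset.range (D + 1),
      Polynomial.C (eval z (homogeneousComponent i φ)) * Polynomial.X ^ i
    have h1 : g = Polynomial.C (eval z φ) * Polynomial.X ^ n := by
      apply Polynomial.funext
      intro c
      have h2 : eval (c • z) φ = ∑ i ∈ Finset.range (D + 1),
          eval (c • z) (homogeneousComponent i φ) := by
        conv_lhs => rw [← sum_homogeneousComponent φ, map_sum]
      have h3 : ∀ i, eval (c • z) (homogeneousComponent i φ) =
          c ^ i * eval z (homogeneousComponent i φ) := by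
        intro i
        exact H91.FG.eval_smul_of_hom (homogeneousComponent_isHomogeneous i φ) c z
      simp only [g, Polynomial.eval_finsetSum, Polynomial.eval_mul, Polynomial.eval_C,
        Polynomial.eval_pow, Polynomial.eval_X]
      rw [mul_comm (eval z φ), ← h c z, h2]
      exact Finset.sum_congr rfl fun i _ => by rw [h3 i, mul_comm]
    have h4 := congrArg (fun q => Polynomial.coeff q n) h1
    simp only [g, Polynomial.finsetSum_coeff, Polynomial.coeff_C_mul, Polynomial.coeff_X_pow,
      mul_ite, mul_one, mul_zero, if_true] at h4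
    rw [Finset.sum_ite_eq] at h4
    by_cases hn : n ∈ Finset.range (D + 1)
    · rw [if_pos hn] at h4; exact h4
    · rw [if_neg hn] at h4
      rw [homogeneousComponent_eq_zero n φ (by
        rw [Finset.mem_range, not_lt] at hn; omega), map_zero, ← h4]
  have h5 : homogeneousComponent n φ = φ := MvPolynomial.funext key
  rw [← h5]
  exact homogeneousComponent_isHomogeneous n φ

theorem sub_left (A : MvPolynomial (Fin 3 ⊕ Fin 3) ℂ) (z Y : Fin 3 → ℂ) :
    eval Y (aeval (Sum.elim (fun k => (C (z k) : MvPolynomial (Fin 3) ℂ)) X) A) = AA A z Y := by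
  unfold AA
  induction A using MvPolynomial.induction_on with
  | C a => simp
  | add p q hp hq => rw [map_add, map_add, map_add, hp, hq]
  | mul_X p i hp =>
    rw [map_mul, map_mul, map_mul, hp]
    rcases i with i | i <;> simp

theorem sub_right (A : MvPolynomial (Fin 3 ⊕ Fin 3) ℂ) (z Y : Fin 3 → ℂ) :
    eval z (aeval (Sum.elim X (fun k => (C (Y k) : MvPolynomial (Fin 3) ℂ))) A) = AA A z Y := by
  unfold AA
  induction A using MvPolynomial.induction_on with
  | C a => simp
  | add p q hp hq => rw [map_add, map_add, map_add, hp, hq]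
  | mul_X p i hp =>
    rw [map_mul, map_mul, map_mul, hp]
    rcases i with i | i <;> simp

/-- a homogeneous polynomial of degree two is a quadratic form -/
theorem quad {F : MvPolynomial (Fin 3) ℂ} (hF : F.IsHomogeneous 2) :
    ∃ c : Fin 3 → Fin 3 → ℂ, ∀ Y, 2 * eval Y F = ∑ k, ∑ l, Y k * Y l * c k l := by
  have h1 : ∀ k l, ∃ c : ℂ, pderiv l (pderiv k F) = C c := by
    intro k l
    have h2 : (pderiv l (pderiv k F)).IsHomogeneous 0 := (hF.pderiv (i := k)).pderiv (i := l)
    rw [← totalDegree_zero_iff_isHomogeneous, totalDegree_eq_zero_iff_eq_C] at h2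
    exact ⟨_, h2⟩
  choose c hc using h1
  refine ⟨c, fun Y => ?_⟩
  have e1 := congrArg (eval Y) hF.sum_X_mul_pderiv
  have e2 : ∀ k, ∑ l, Y l * c k l = eval Y (pderiv k F) := by
    intro k
    have h3 := congrArg (eval Y) (hF.pderiv (i := k)).sum_X_mul_pderiv
    rw [map_sum] at h3
    simp only [map_mul, eval_X, hc, eval_C, map_nsmul] at h3
    rw [h3]
    norm_num
  rw [map_sum] at e1
  simp only [map_mul, eval_X, map_nsmul] at e1
  have e3 : (2 : ℕ) • eval Y F = 2 * eval Y F := by rw [nsmul_eq_mul]; norm_num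
  rw [e3] at e1
  rw [← e1]
  refine Finset.sum_congr rfl fun k _ => ?_
  rw [← e2 k, Finset.mul_sum]
  exact Finset.sum_congr rfl fun l _ => by ring

theorem t_QF (hBAS : S_BAS) : S_QF := by
  intro m p A hc
  obtain ⟨-, -, -, hAz, hAY, -, -, -⟩ := hBAS m 2 p A hc
  refine ⟨?_, ?_, ?_⟩
  · intro z
    unfold Matrix.IsSymm
    ext k l
    simp only [Matrix.transpose_apply, QQ, Matrix.of_apply]
    rw [add_comm (Pi.single l (1 : ℂ) : Fin 3 → ℂ) (Pi.single k 1)]
    ring
  · intro z Y
    set F : MvPolynomial (Fin 3) ℂ :=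
      aeval (Sum.elim (fun k => (C (z k) : MvPolynomial (Fin 3) ℂ)) X) A with hFdef
    have hF : ∀ Y, eval Y F = AA A z Y := fun Y => sub_left A z Y
    have hhom : F.IsHomogeneous 2 := hom_of_eval (fun c Y => by rw [hF, hF, hAY])
    obtain ⟨c, hc⟩ := quad hhom
    have hf : ∀ Y, AA A z Y = (∑ k, ∑ l, Y k * Y l * c k l) / 2 := by
      intro Y
      rw [← hc Y, hF]; ring
    have hQ : ∀ k l, QQ A z k l = (c k l + c l k) / 4 := by
      intro k l
      simp only [QQ, Matrix.of_apply, hf]
      fin_cases k <;> fin_cases l <;> simp [Fin.sum_univ_three, Pi.single_apply] <;> ring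
    rw [hf Y]
    simp only [hQ, Fin.sum_univ_three]
    ring
  · let S : (Fin 3 → ℂ) → MvPolynomial (Fin 3) ℂ := fun V =>
      aeval (Sum.elim X (fun k => (C (V k) : MvPolynomial (Fin 3) ℂ))) A
    have hS : ∀ z V, eval z (S V) = AA A z V := fun z V => sub_right A z V
    have hSh : ∀ V, (S V).IsHomogeneous 2 := fun V =>
      hom_of_eval (fun c z => by rw [hS, hS, hAz])
    refine ⟨fun k l => C (1 / 2) * (S (Pi.single k 1 + Pi.single l 1) - S (Pi.single k 1) -
      S (Pi.single l 1)), ?_, ?_⟩
    · intro k l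
      exact (((hSh _).sub (hSh _)).sub (hSh _)).C_mul _
    · intro z k l
      simp only [map_mul, map_sub, eval_C, hS, QQ, Matrix.of_apply]
      ring

end H32.FH
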